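import Pool.Agent.H72.E17.QMain
import Pool.Agent.H72.A5.Sta

/-!
# MP_d2121a_nt : Artin L-functions over the intermediate fields of splitting fields, and of
extensions with Galois group `SL_2` over a finite field of characteristic 2

In the first three parts `f ∈ F[X]` has degree `n`, `F` is a number field, `L` the splitting field of
`f`, and `Gal(L/F)` has at least `n! / 2` elements (it is `S_n` or `A_n`).  `Both K`: every Artin
L-function of `L / K` is a product of L-functions of one-dimensional characters of groups `Gal(L/E)`,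
`E` between `F` and `L` (`HeckeProduct`), and Artin's conjecture holds for `L / K` (`ArtinHolds`).

**`AltFivePart`.**  `K` is any field between `F` and `L` such that `Gal(L/K)` is isomorphic to `A_5`.
Let `a`, `b`, `c` be the sums of `⌊d / 5⌋`, `⌊d / 3⌋`, `⌊d / 4⌋` over the degrees `d` of the
irreducible factors of `f` over `K`.

1. If `a`, `b`, `n` satisfy `Fits`, then Artin's conjecture holds for `L / K`, and `Both K` if moreover
   `n ≥ 4 c + 5`.  `Fits` holds for example
   if `b ≥ 54` is divisible by 3 and `b ≠ 2 a - 1`, and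
   if `b ≥ 30`, `n ≥ 5 a + b` and `3 ∣ a` or `b ≤ 2 a - 8`.
2. If there are `4 r` roots of `f` whose degree over `K` is divisible by 5 and
   `r ^ 5 ≥ 10 ^ 7 (60 n) ^ 4`, then Artin's conjecture holds for `L / K`.

**`PolynomialPart`.**  `n ≥ 17`.

1. `Both K` for every `K` between `F` and `L` with `Gal(L/K)` isomorphic to `A_5` over which `f` is a
   product of an irreducible polynomial of degree 5, one of degree 12 and linear ones (`Splits512`).
   Such `K` exist.
2. If `4 ^ m (4 ^ m - 1)` divides `n`, `m ≥ 2`, `Both K` for every `K` with `Gal(L/K)` isomorphic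
   to `SL_2` over a field with `2 ^ m` elements for which every root of `f` generates `L` over `K`.
   Such `K` exist.
3. If `n ≥ 4 ^ m + 1`, `m ≥ 2`, there is a `K` with `Gal(L/K)` isomorphic to `SL_2` over a field
   with `2 ^ m` elements and `Both K`.

**`QuinticPart`.**  `Gal(L/F)` has at least `n!` elements (`n ≥ 10`) or at least `n! / 2` elements
(`n ≥ 12`).  For every `K` between `F` and `L` with `Gal(L/K)` isomorphic to `S_5` over which `f` is a
product of two irreducible polynomials of degree 5 and linear ones (`Splits55`) there are fields `E₁`,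
`E₂` between `F` and `L` with `[L : E₁] = 80`, `[L : E₂] = 48` and characters `ψ₁`, `ψ₂` of
`Gal(L/E₁)`, `Gal(L/E₂)` of orders 5 and 2 with `ζ_{K(x)}(s) = ζ_K(s) L(s, ψ₁) L(s, ψ₂)`,
`Re s > 1`, for all roots `x` of `f` outside `K`; and `ζ_{K(x)} / ζ_K` is entire (`ZetaQuot`).
Such `K` exist.

**`LinearPart`.**  `L / F` is a Galois extension of number fields with Galois group isomorphic to
`SL_2(𝕜)`, `𝕜` a finite field with `2 ^ a` elements, `K` an intermediate field.

1. If `a` is a power of `2`, `Both K` for every `K ≠ F`.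
2. For every `a`, `Both K` unless `[L : K] = 2 ^ m (4 ^ m - 1)` for some `m ≥ 2` dividing `a` with
   `a / m` odd.

No hypothesis is made anywhere: the theorems of Artin, Brauer and Hecke used are proved in
`H31/CF/Main.lean`.
-/

open Pool.Agent.H58.S2 Pool.Agent.H72.E17 Pool.Agent.H72.A5

namespace Pool.Agent.H72.Old.EvenLinear

theorem result : AltFivePart ∧ PolynomialPart ∧ QuinticPart ∧ LinearPart := by
  refine ⟨main_alt5, ?_, fun F L _ _ _ _ _ _ f _ hn => main_quintic f hn, ?_⟩
  · intro F L _ _ _ _ _ _ f _ hn hcard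
    obtain ⟨h1, h2, h3⟩ := main_poly (L := L) f hn hcard
    refine ⟨⟨h1, h2⟩, fun m hm2 𝕜 _ _ h𝕜 => ⟨fun hd => ?_, fun hd => h3 m hm2 hd 𝕜 h𝕜⟩⟩
    exact main_free f hn hcard hm2 hd 𝕜 h𝕜
  · intro a 𝕜 _ _ ha F L _ _ _ _ _ _ ⟨e⟩
    refine ⟨?_, fun K hK => main_all ha e K hK⟩
    rintro ⟨j, rfl⟩ K hK
    exact main_pow j ha e K hK

end Pool.Agent.H72.Old.EvenLinear
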